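import Pool.Agent.Helper89.OS.St1

/-! # Project OS (MP_2b6189_al), module XB: the matrix `s = p rho (s2 b)` -/

set_option autoImplicit false

namespace Pool.Agent.Helper54.OS

open Matrix ComplexConjugate Pool.Agent.Helper94.YF Pool.Agent.Helper94.YG Pool.Agent.Helper89.OS

theorem hXB : StXB := by
  intro hFUS hDUA hGRP hENT I _ _ Z p a m b j tu Pi y z hc
  obtain ⟨g1, -, g3, -, -, -, -, -, g9, -, -, -, -⟩ :=
    hGRP Z.L (p ^ a) b j tu hc.idp.idem hc.jh hc.tu_val hc.tu_mul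
  obtain ⟨e1, e2⟩ := hENT hFUS hDUA I Z.toCentreRep b
  have hn0 : (Z.n : ℂ) ≠ 0 := by
    have := Z.n_pos
    exact_mod_cast this.ne'
  have hn : (Z.n : ℂ) = (p : ℂ) * m := by
    rw [hc.n_eq]; push_cast; ring
  have hmul : ∀ (g g' : SL Z.L) (i k : I),
      ∑ l, Z.rho g i l * Z.rho g' l k = Z.rho (g * g') i k := by
    intro g g' i k
    rw [map_mul, Matrix.mul_apply]
  have hd : ∀ i, (Z.d i : ℂ) = (Z.n : ℂ) * Z.rho Sm i Z.o := by
    intro i
    rw [Z.s_symm i Z.o, Z.s_o]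
    field_simp
  refine ⟨fun i k => by rw [e1 i k], fun i k => (e2 p y hc.yy i k).1, ?_, ?_, ?_⟩
  · intro i k
    have hu : Z.rho (s2 b) * (Z.rho (s2 b))ᴴ = 1 :=
      mul_eq_one_comm.mp (Z.unitary _)
    have h1 := congrFun (congrFun hu i) k
    rw [Matrix.mul_apply, Matrix.one_apply] at h1
    have h2 : ∑ l, (p : ℂ) * Z.rho (s2 b) i l * conj ((p : ℂ) * Z.rho (s2 b) k l) =
        (p : ℂ) ^ 2 * ∑ l, Z.rho (s2 b) i l * (Z.rho (s2 b))ᴴ l k := by
      rw [Finset.mul_sum]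
      refine Finset.sum_congr rfl fun l _ => ?_
      rw [map_mul, Complex.conj_natCast, Matrix.conjTranspose_apply]
      simp only [Complex.star_def]
      ring
    rw [h2, h1]
    split_ifs <;> ring
  · intro i
    have h1 : ∑ k, (p : ℂ) * Z.rho (s2 b) i k * (Z.d k : ℂ) =
        (p : ℂ) * Z.n * ∑ k, Z.rho (s2 b) i k * Z.rho Sm k Z.o := by
      rw [Finset.mul_sum]
      refine Finset.sum_congr rfl fun k _ => ?_
      rw [hd k]; ring
    have h2 : (s2 b * Sm : SL Z.L) = s2 (1 - b) * Dg (tu (-1)) := by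
      rw [← g1, ← mul_assoc, g3, g9]
    have h3 : Z.rho (s2 (1 - b) * Dg (tu (-1))) i Z.o = Z.rho (s2 (1 - b)) i Z.o := by
      rw [← hmul]
      rw [Finset.sum_eq_single Z.o]
      · rw [Z.borel, if_pos rfl, mul_one]
      · intro k _ hk
        rw [Z.borel, if_neg hk, mul_zero]
      · intro h
        exact absurd (Finset.mem_univ _) h
    rw [h1, hmul, h2, h3, hc.zz i, hn]
    ring
  · intro i
    have h1 : ∑ k, (p : ℂ) * Z.rho (s2 b) i k * (z k : ℂ) =
        (p : ℂ) * m * ∑ k, Z.rho (s2 b) i k * Z.rho (s2 (1 - b)) k Z.o := by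
      rw [Finset.mul_sum]
      refine Finset.sum_congr rfl fun k _ => ?_
      rw [hc.zz k]; ring
    rw [h1, hmul, g1, hd i, hn]

end Pool.Agent.Helper54.OS
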